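import Mathlib
import Pool.Agent.U935.KS.DeriveDense

/-!
# Varieties with an abelian group of automorphisms of maximal rank and positive entropy are special
and potentially dense

`V` is a projective variety of dimension `n ≥ 2` over a number field and `Γ` an abelian group of
automorphisms of `V` which contains a free abelian group of rank `n - 1` all of whose nonzero
elements have positive entropy, that is first dynamical degree larger than one.

The theorem derives the following from standard facts on nef classes (`Geometry`,
`IntersectionNumbers`) and heights.

* There is a `Γ`-invariant proper closed subset `B` such that every `Γ`-orbit outside of `B` is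
  finite or Zariski dense, and all but finitely many points of bounded degree outside of `B` have a
  Zariski dense orbit.
* `V` is potentially dense.
* Campana's core of `V` is constant, that is `V` is special: a subgroup of finite index of `Γ`
  acts trivially on the base of the core, and it has a dense orbit.

So special and potentially dense are equivalent for these varieties: both hold. The proof
constructs the nef eigenclasses of Dinh and Sibony (Perron-Frobenius theorem for the nef
cone, Hodge index theorem, integrality of the action on the Néron-Severi lattice), then canonical
heights for them, and computes the degree of the closure of an orbit with respect to them.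
-/

set_option autoImplicit false

namespace Pool.Agent.Results.MP_9410e4_ag.PositiveEntropyDensity

open Pool.Agent.Q8.KS Pool.Agent.U935.KS Filter Topology

theorem result {G Γ : Type} [Group G] [AddCommGroup Γ] (V : Variety G) (hV : NumberField V)
    (Z : Zariski V) (Q : Geometry V Z) (P : GroupAction Q Γ) (S : IntersectionNumbers Q)
    (hS : Preserves P S) (hdim : 2 ≤ V.dimPred + 1) (hP : MaximalEntropyRank P) :
    -- dense orbits
    (∃ B : Set V.Pt, Exceptional P B ∧ (∀ x, x ∉ B → InfiniteUnder P x → DenseUnder P x) ∧
      ∀ e : ℕ, {x | x ∉ B ∧ (MulAction.orbit G x).ncard ≤ e ∧ ¬ DenseUnder P x}.Finite) ∧
    -- potential density
    DensePoints Z ∧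
    -- the core is constant
    ∀ c : CoreMap P, CoreConstant c :=
  ⟨(density hV P S hS (by omega) hP).1, (density hV P S hS (by omega) hP).2,
    core_constant hV P S hS (by omega) hP⟩

end Pool.Agent.Results.MP_9410e4_ag.PositiveEntropyDensity
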