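import Pool.Agent.U899.QA.PdN

/-!
# Calabi–Yau double covers of `(ℙ¹)ⁿ` and K3 surfaces: Zariski density of the rational points over
quadratic extensions with prescribed behaviour at finitely many places

Let `K` be a number field, `n ≥ 1`, let `F` be a form of multidegree `(4, …, 4)` over `K` such that the
divisor `F = 0` in `(ℙ¹)ⁿ` is smooth, and let `X : w² = F` be the corresponding double cover of `(ℙ¹)ⁿ`,
a Calabi–Yau variety of dimension `n`. For `n = 2` these are the K3 surfaces which are double covers of
`ℙ¹ × ℙ¹` branched along a smooth curve of bidegree `(4, 4)`. The variety `X` is special (its canonical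
bundle is trivial), so it should be potentially dense. This is known for `X`: there is some number field
over which the rational points are dense. Here we determine such fields.

A plane through `x`, `F(x) ≠ 0`, in the directions of a set `J` of factors, `∅ ≠ J ≠ {1, …, n}`, is
special if on it the partial derivatives of `F` in the other directions are constant multiples of `F`.
For `n = 2` there are only finitely many special planes (lines of the two rulings). For `n ≥ 3` we
assume this, over the algebraic closure.

(1) In each affine chart there are finite sets `A j` of elements of `K` such that for ALL points `z`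
over `K` with `z j ∉ A j`, `F(z) ≠ 0`, and ALL finite extensions `L` of `K` which contain a square root
`w` of `F(z)`, the `L`-points of `X` are Zariski dense, and moreover this is true for the `L`-points in
all neighbourhoods of the point `(z, w)` at all places of `L`. In particular the extensions `K(√F(z))`,
`z` outside finitely many coordinate hyperplanes `z j = a`, all work.

(2) Let a finite set of places of `K` be given (archimedean or not, of any degree; it may be empty),
local points of `X` at these places which are not on the branch divisor, a neighbourhood of this family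
and a finite extension `N` of `K`. Then there are a quadratic extension `L` of `K` which is not
contained in `N`, in which all these places split, and an `L`-point `P` of `X` in the neighbourhood,
such that the `L`-points of `X` in all neighbourhoods of `P` at all places of `L` are Zariski dense.

For instance, if `K` is totally real and `X` has points off the branch divisor at all the real places,
then the rational points of `X` are dense over infinitely many totally real quadratic extensions of
`K`. The same is true for `p`-adic places: for potential density one can take quadratic extensions in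
which any given finite set of places splits, as soon as `X` has such points there.
-/

set_option autoImplicit false

namespace Pool.Agent.Results.MP_9410e4_ag.QuadraticDensity

open MvPolynomial

/-- `F` is a form of degree `4` in each pair of variables `(j, 0)`, `(j, 1)`, the coordinates of the
`j`-th factor of `(ℙ¹)ⁿ`. -/
def IsForm {K : Type} [Field K] {n : ℕ} (F : MvPolynomial (Fin n × Fin 2) K) : Prop :=
  ∀ m ∈ F.support, ∀ j, m (j, 0) + m (j, 1) = 4

/-- The divisor `F = 0` in `(ℙ¹)ⁿ` is smooth. -/
def Smooth {K : Type} [Field K] {n : ℕ} (F : MvPolynomial (Fin n × Fin 2) K) : Prop :=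
  ∀ x : Fin n × Fin 2 → AlgebraicClosure K, (∀ j, ∃ b, x (j, b) ≠ 0) → ∃ p, aeval x (pderiv p F) ≠ 0

/-- The plane through `X` in the directions of `J` is special: on it the derivatives of `F` in the
other directions are constant multiples of `F`. -/
def Special {K : Type} [Field K] {n : ℕ} (F : MvPolynomial (Fin n × Fin 2) K)
    (X : Fin n × Fin 2 → K) (J : Finset (Fin n)) : Prop :=
  ∀ k, k ∉ J → ∀ b, ∃ c : K, ∀ Y : Fin n × Fin 2 → K, (∀ j, j ∉ J → ∀ b, Y (j, b) = X (j, b)) →
    eval Y (pderiv (k, b) F) = c * eval Y F

/-- There are only finitely many special planes through points off the divisor `F = 0`. -/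
def FewSpecial {K : Type} [Field K] {n : ℕ} (F : MvPolynomial (Fin n × Fin 2) K) : Prop :=
  ∀ J : Finset (Fin n), J.Nonempty → J ≠ Finset.univ →
    {P : Set (Fin n × Fin 2 → K) | ∃ X, eval X F ≠ 0 ∧ Special F X J ∧
      P = {Y | ∀ j, j ∉ J → ∃ a : K, a ≠ 0 ∧ ∀ b, Y (j, b) = a * X (j, b)}}.Finite

/-- The equation in the affine chart in which the coordinates `(j, ε j)` are equal to one. -/
noncomputable def chart {K : Type} [Field K] {n : ℕ} (F : MvPolynomial (Fin n × Fin 2) K)
    (ε : Fin n → Fin 2) : MvPolynomial (Fin n) K :=
  aeval (fun p : Fin n × Fin 2 => if p.2 = ε p.1 then 1 else X p.1) F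

/-- The point `(x, w)` lies on the double cover `w² = f(x)`. -/
def OnCover {F : Type} [Field F] {n : ℕ} (f : MvPolynomial (Fin n) F) (P : (Fin n → F) × F) : Prop :=
  P.2 ^ 2 = eval P.1 f

/-- The image of a point under an embedding of fields. -/
def image {K F : Type} [Field K] [Field F] {n : ℕ} (φ : K →+* F) (P : (Fin n → K) × K) :
    (Fin n → F) × F :=
  (fun j => φ (P.1 j), φ P.2)

/-- The absolute value of `K` which is given by an embedding of `K` in a normed field. -/
noncomputable def place {K M : Type} [Field K] [NormedField M] (σ : K →+* M) : AbsoluteValue K ℝ where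
  toFun x := ‖σ x‖
  map_mul' x y := by rw [map_mul, norm_mul]
  nonneg' x := norm_nonneg _
  eq_zero' x := by rw [norm_eq_zero, map_eq_zero]
  add_le' x y := by rw [map_add]; exact norm_add_le _ _

/-- For all neighbourhoods `U` of the image of `P`, the `L`-points of the variety `w² = f(x)` with
image in `U` are Zariski dense: a polynomial `g` in the coordinates `x` and `w` (the variable `none`)
which vanishes at all of them is divisible by `w² - f`. -/
def DenseNear {L M : Type} [Field L] [NormedField M] {n : ℕ} (σ : L →+* M) (f : MvPolynomial (Fin n) L)
    (P : (Fin n → L) × L) : Prop :=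
  ∀ U ∈ nhds (image σ P), ∀ g : MvPolynomial (Option (Fin n)) L,
    (∀ Q, OnCover f Q → image σ Q ∈ U → eval (fun o => o.elim Q.2 Q.1) g = 0) →
      (X none ^ 2 - rename some f) ∣ g

/-- `P` is a point of the variety, and at all places of `L` (embeddings of `L` with a dense image in a
complete field) the `L`-points in all neighbourhoods of `P` are Zariski dense. -/
def LocallyDense {L : Type} [Field L] {n : ℕ} (f : MvPolynomial (Fin n) L) (P : (Fin n → L) × L) :
    Prop :=
  OnCover f P ∧ ∀ (M : Type) [NontriviallyNormedField M] [CompleteSpace M] (σ : L →+* M),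
    DenseRange σ → DenseNear σ f P

/-- **Density of the rational points of Calabi–Yau double covers of `(ℙ¹)ⁿ` over quadratic extensions
with prescribed behaviour at finitely many places.** -/
theorem result (K : Type) [Field K] [NumberField K] (n : ℕ) (hn : 0 < n)
    (F : MvPolynomial (Fin n × Fin 2) K) (hF : IsForm F) (hs : Smooth F)
    (hfs : n = 2 ∨ FewSpecial (map (algebraMap K (AlgebraicClosure K)) F)) (ε : Fin n → Fin 2) :
    -- (1) the fields which contain the square root of a value
    (∃ A : Fin n → Set K, (∀ j, (A j).Finite) ∧ ∀ z : Fin n → K, (∀ j, z j ∉ A j) →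
      ∀ (L : Type) [Field L] [NumberField L] [Algebra K L] (w : L), w ≠ 0 →
        w ^ 2 = algebraMap K L (eval z (chart F ε)) →
        LocallyDense (map (algebraMap K L) (chart F ε)) (fun j => algebraMap K L (z j), w)) ∧
    -- (2) quadratic extensions in which given places split: the places
    ∀ (ι : Type) [Finite ι] (M : ι → Type) [∀ v, NontriviallyNormedField (M v)]
      [∀ v, CompleteSpace (M v)] (σ : ∀ v, K →+* M v), (∀ v, DenseRange (σ v)) →
      (Pairwise fun v v' => ¬ (place (σ v)).IsEquiv (place (σ v'))) →
      -- the local points
      ∀ S : ∀ v, (Fin n → M v) × M v, (∀ v, OnCover (map (σ v) (chart F ε)) (S v)) →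
      (∀ v, (S v).2 ≠ 0) → ∀ η : ℝ, 0 < η →
      ∀ (N : Type) [Field N] [NumberField N] [Algebra K N],
      ∃ (L : Type) (_ : Field L) (_ : NumberField L) (_ : Algebra K L) (σ' : ∀ v, L →+* M v)
        (P : (Fin n → L) × L),
        Module.finrank K L = 2 ∧ IsEmpty (L →ₐ[K] N) ∧ (∀ v, (σ' v).comp (algebraMap K L) = σ v) ∧
        (∀ v, dist (S v) (image (σ' v) P) < η) ∧
        LocallyDense (map (algebraMap K L) (chart F ε)) P := by
  refine ⟨?_, ?_⟩
  · obtain ⟨A, hA, h⟩ := Pool.Agent.U899.QA.zdN K hn F hF hs hfs ε
    refine ⟨A, hA, fun z hz L _ _ _ w hw hon => ⟨?_, fun M _ _ σ hσ => h z hz L w hw hon M σ hσ⟩⟩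
    change w ^ 2 = eval (fun j => algebraMap K L (z j)) (map (algebraMap K L) (chart F ε))
    rw [hon, eval_map, show (fun j => algebraMap K L (z j)) = algebraMap K L ∘ z from rfl,
      ← eval₂_comp (algebraMap K L) z (chart F ε)]
  · intro ι _ M _ _ σ hd hne S hS hS0 η hη N _ _ _
    obtain ⟨L, iL, iN, iA, σ', P, h3, h4, h5, h6, h7, h8⟩ :=
      Pool.Agent.U899.QA.pdN K hn F hF hs hfs ε ι M σ hd hne S hS hS0 N hη
    exact ⟨L, iL, iN, iA, σ', P, h3, h5, h4, h7, h6, fun M' _ _ θ hθ => h8 M' θ hθ⟩

end Pool.Agent.Results.MP_9410e4_ag.QuadraticDensity
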