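import Pool.Agent.U578.UR.Dens

/-!
MP_9410e4_ag, Q1: one growth function for all projective varieties over number fields, such that the
varieties with a nondegenerate entire map of this growth are potentially dense.
-/

set_option autoImplicit false

namespace Pool.Agent.Results.MP_9410e4_ag.SlowMapsDensity

open Pool.Agent.U578.UR Pool.Agent.R871.SG MvPolynomial

/-- There is a function `φ` with `φ r / log r → ∞` such that the following holds for all closed subsets
`X = {F = 0}` of projective spaces over the algebraic numbers.

(1) For all `e`: there is a holomorphic map from some `ℂ^p` to `X(ℂ)`, given by entire functions as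
homogeneous coordinates, whose growth is at most `φ` for arbitrarily large radii, and which has rank at
least `e` at some point, if and only if there is a rational map from the affine space of dimension `e`
to `X`, over the algebraic numbers (so over a number field), the closure of whose image has dimension at
least `e`.

(2) If `X(ℂ)` is irreducible of dimension `q` (the zero set of the homogeneous prime ideal `J`), and if
there is a holomorphic map from some `ℂ^p` to `X(ℂ)` of growth at most `φ` for arbitrarily large radii
and of rank `q` at some point, then `X` is potentially dense: there is a number field `k` over which `X`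
is given such that the points of `X` over `k` are Zariski dense in `X`. -/
theorem result : ∃ φ : ℝ → ℝ, Grows φ ∧
    ∀ (n r : ℕ) (F : Fin r → MvPolynomial (Fin (n + 1)) Qbar),
      (∀ e, (∃ p, SlowMap φ (idealC F) p e) ↔
        ∃ P : Fin (n + 1) → MvPolynomial (Fin e) Qbar, (∀ i, aeval P (F i) = 0) ∧
          ((e + 1 : ℕ) : Cardinal) ≤
            Algebra.trdeg ℂ (MvPolynomial (Fin (n + 1)) ℂ ⧸ imIdeal fun j => toC (P j))) ∧
      ∀ (J : Ideal (MvPolynomial (Fin (n + 1)) ℂ)) (q : ℕ), IsVariety J q →
        Cone J = Cone (idealC F) → (∃ p, SlowMap φ J p q) → PotentiallyDense F :=
  slow_dense

end Pool.Agent.Results.MP_9410e4_ag.SlowMapsDensity
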