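import Pool.Agent.U207.AP.MainOne

set_option autoImplicit false

/-!
# Potential density from multisections of the common base of genus one fibrations which are connected
by curves of genus at most one

Let `k₀` be a number field with algebraic closure `Ω` and let `X` be the hypersurface `F = 0`, for a
polynomial `F` in `N` variables over `k₀` which is irreducible over `Ω`, with the function field `K`
over `Ω` (every geometrically integral variety over `k₀` is birational to such a hypersurface). Let
finitely many dominant rational fibrations of `X` in curves of genus at most one be given, by their
fields of functions `L 1, …, L m` of the bases, intermediate fields of `K`. As in the starting file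
`GenusOneFibrations`, the fibres need no section, and no transversality is supposed.

The functions in `K` which are algebraic over every `L i` form the field of functions of a variety
`B`, the common base of the fibrations: the general fibres of `X ⇢ B` are the varieties connected by
chains of fibres of the given fibrations. If `B` is a point, `GenusOneFibrations` says that `X` is
potentially dense. Here `B` is arbitrary. Some of the coordinates of `X`, those with index in `S`,
are supposed to be algebraically independent, and the functions of `B` algebraic over them: they are
for instance a transcendence basis of the field of functions of `B` (every variety has such a model).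

The theorem: there are countably many proper closed subsets `T n = 0` of `X` such that `X` is
potentially dense if it contains a subvariety which dominates `B`, is contained in none of them and is
connected by curves of genus at most one. More generally, let `Z` be a variety over `Ω`, the
hypersurface `G = 0` with function field `J` and generic point `z`, with fibrations in curves of genus
at most one and their common base `B'`, with the coordinates `z s`, `s` in `S'`, and let `θ` be a
rational map from `Z` to `X`, with image contained in none of the `T n = 0`, such that the images of
the fibres of `Z ⇢ B'` dominate `B`: the `θ s`, `s` in `S`, and the `z s`, `s` in `S'`, are together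
algebraically independent. For instance, `B'` can be a point and `Z` a rational variety, a product of
elliptic curves, or a K3 surface with two elliptic fibrations. Then every scheme over `k₀` dominated
by `X` is potentially dense.

In the proof, `T n = 0` contains certain degenerate points, which do not depend on `n`, and the points
at which `n` times a point of an elliptic curve is zero: the difference of the two points of the curve
`w² = Q(t)` with the same `t`, or the sum of the conjugates for a torsor. So the image of `Z` is a
multisection which is not a torsion multisection, as in the theorems of Bogomolov and Tschinkel and of
Hassett and Tschinkel for one fibration in elliptic curves or abelian varieties; here there are several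
fibrations in curves of genus at most one, without sections, and `B` is their common base.

The proof. Everything is defined over a finite extension `k` of `k₀`, which has an embedding in some
`ℚ_p`. Let `z₀` be a point of `Z` over `ℚ_p` which is generic over `k`, and `x₀` its image in `X`. The
point `x₀` is not generic in `X`, but by the conditions on `T n` the relevant points of the elliptic
curves through `x₀` are not torsion points. As the orders of torsion points in a `p`-adic family are
bounded, the same is true for all points in a `p`-adic neighbourhood `U` of `x₀`, and for the
fibrations of `Z` and all points in a neighbourhood `U'` of `z₀` with image in `U`. Let `M` be a finite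
extension of `k` such that there is a point of `Z` over `M` in `U'`. The points of `Z` over `M` in `U'`
can be moved along the fibres, so that their vanishing ideal is stable under the vector fields which
kill the functions of `B'`, among them dual vector fields of the functions `θ s`, `s` in `S`. So a
relation between these functions which holds at these points can be differentiated until it is
constant, and there is no relation. The images of the points are points of `X` over `M` in `U`. The
vanishing ideal `I` of these is stable under the vector fields which kill the functions of `B`, and it
contains no nonzero polynomial in the coordinates of the base; so `I` is the ideal of `X`.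
-/

namespace Pool.Agent.Results.MP_9410e4_ag.UnirationalMultisections

open MvPolynomial AlgebraicGeometry CategoryTheory
open Pool.Agent.W572 Pool.Agent.W572.G Pool.Agent.Y742.GG

section

variable {Ω K : Type} [Field Ω] [Field K] [Algebra Ω K] {N m : ℕ}

/-- The intermediate fields `L i` define fibrations in curves of genus at most one: `K` is over `L i`
the function field of a curve `w² = Q(t)`, with `Q` of degree at most four and not a constant times a
square, or of a torsor under an elliptic curve. -/
def IsGenusOneFamily (L : Fin m → IntermediateField Ω K) : Prop :=
  ∀ i, IsDoubleCoverOfLine (L i) ∨ IsEllipticTorsor (L i)

/-- The coordinates `x s`, `s` in `S`, are coordinates of the common base of the fibrations: they are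
algebraically independent, and all the elements of `K` which are algebraic over every `L i` are
algebraic over them. -/
structure IsCommonBase (x : Fin N → K) (L : Fin m → IntermediateField Ω K) (S : Set (Fin N)) :
    Prop where
  independent : AlgebraicIndependent Ω (fun s : S => x s)
  algebraic : ∀ a : K, (∀ i, IsAlgebraic (L i) a) → IsAlgebraic (Algebra.adjoin Ω (x '' S)) a

/-- `θ` is a rational map from the variety `Z` with function field `J` to the hypersurface `F = 0`,
whose image is contained in none of the closed subsets `T n = 0`, such that the images of the fibres
of `Z` over the common base with the coordinates `z s`, `s` in `S'`, have dominant projections to the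
coordinates with index in `S`. -/
structure IsMultisection (F : MvPolynomial (Fin N) Ω) (S : Set (Fin N))
    (T : ℕ → MvPolynomial (Fin N) Ω) {J : Type} [Field J] [Algebra Ω J] {q : ℕ} (z : Fin q → J)
    (S' : Set (Fin q)) (θ : Fin N → J) : Prop where
  zero : aeval θ F = 0
  general : ∀ n, aeval θ (T n) ≠ 0
  dominant : AlgebraicIndependent Ω (Sum.elim (fun s : S => θ s) (fun s : S' => z s))

end

/-- Let `F` be a polynomial over the number field `k₀`, irreducible over the algebraic closure, and
let `K` be the function field of `F = 0` over the algebraic closure and `x` the generic point. Let
`L i` be finitely many intermediate fields of `K` which define fibrations in curves of genus at most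
one, and let the coordinates with index in `S` be coordinates of their common base. Then there are
countably many polynomials `T n`, not divisible by `F`, such that the following holds. Let `G = 0` be
an irreducible hypersurface over the algebraic closure with function field `J` and generic point `z`,
with fibrations `L' i` in curves of genus at most one and coordinates with index in `S'` of their
common base. If there is a rational map from `G = 0` to `F = 0` with image in none of the `T n = 0`,
such that the images of the fibres over the common base of the `L' i` dominate the common base of the
`L i`, then every scheme over `k₀` to which the hypersurface `F = 0` admits a dominant rational map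
over `k₀` is potentially dense. -/
theorem result (k₀ : Type) [Field k₀] [NumberField k₀] {N m : ℕ}
    (F : MvPolynomial (Fin N) k₀)
    (hF : Irreducible (map (algebraMap k₀ (AlgebraicClosure k₀)) F))
    {K : Type} [Field K] [Algebra (AlgebraicClosure k₀) K] {x : Fin N → K}
    (hx : IsGenericPoint (map (algebraMap k₀ (AlgebraicClosure k₀)) F) x)
    (L : Fin m → IntermediateField (AlgebraicClosure k₀) K) (hL : IsGenusOneFamily L)
    (S : Set (Fin N)) (hS : IsCommonBase x L S) :
    ∃ T : ℕ → MvPolynomial (Fin N) (AlgebraicClosure k₀),
      (∀ n, ¬ map (algebraMap k₀ (AlgebraicClosure k₀)) F ∣ T n) ∧
      ∀ (q n : ℕ) (G : MvPolynomial (Fin q) (AlgebraicClosure k₀)), Irreducible G →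
        ∀ (J : Type) [Field J] [Algebra (AlgebraicClosure k₀) J] (z : Fin q → J),
        IsGenericPoint G z →
        ∀ (L' : Fin n → IntermediateField (AlgebraicClosure k₀) J), IsGenusOneFamily L' →
        ∀ (S' : Set (Fin q)), IsCommonBase z L' S' → ∀ (θ : Fin N → J),
        IsMultisection (map (algebraMap k₀ (AlgebraicClosure k₀)) F) S T z S' θ →
        ∀ (X : Scheme.{0}) (sX : X ⟶ Spec (.of k₀)) (f : (hypersurface F).PartialMap X),
          IsDominant f.hom → f.hom ≫ sX = f.domain.ι ≫ hypersurfaceStr F →
          PotentiallyDense sX := by
  obtain ⟨T, hT, H⟩ := Pool.Agent.U207.AP.main_one k₀ (Pool.Agent.Y742.GG.fg_of_numberField k₀) F hF
    hx L hL S hS.independent hS.algebraic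
  exact ⟨T, hT, fun q n G hG J _ _ z hz L' hL' S' hS' θ hθ X sX f hf hfk =>
    H hG hz L' hL' S' hS'.algebraic θ hθ.zero hθ.general hθ.dominant sX f hf hfk⟩

end Pool.Agent.Results.MP_9410e4_ag.UnirationalMultisections
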